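import Pool.Agent.E8helper92.FS.Stm

/-!
# Piece PER of project FS
-/

set_option autoImplicit false

namespace Pool.Agent.E8helper91.FS

open Pool.Agent.E8helper92.FS

theorem per : S_PER := by
  intro G R
  refine ⟨(4 * G + 1).factorial, Nat.factorial_pos _, ?_⟩
  intro g h1 h2
  apply Equiv.ext
  intro q
  rw [Equiv.Perm.one_apply]
  obtain ⟨c1, hc1, f1⟩ := h2 (q + G + R + 1)
  obtain ⟨c2, hc2, f2⟩ := h2 (q - G - R - 1)
  rw [abs_le] at hc1 hc2
  have up : ∀ y, y < c1 - R → g y < c1 - R := by
    intro y hy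
    by_contra hcon
    push Not at hcon
    have h3 := h1 y
    rw [abs_le] at h3
    have h4 := f1 (g y - c1) (by rw [abs_le]; constructor <;> omega)
    rw [show c1 + (g y - c1) = g y by ring] at h4
    have h5 := g.injective h4
    omega
  have lo : ∀ y, c2 + R < y → c2 + R < g y := by
    intro y hy
    by_contra hcon
    push Not at hcon
    have h3 := h1 y
    rw [abs_le] at h3
    have h4 := f2 (g y - c2) (by rw [abs_le]; constructor <;> omega)
    rw [show c2 + (g y - c2) = g y by ring] at h4
    have h5 := g.injective h4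
    omega
  have it : ∀ j : ℕ, c2 + R < (g ^ j) q ∧ (g ^ j) q < c1 - R := by
    intro j
    induction j with
    | zero =>
      rw [pow_zero, Equiv.Perm.one_apply]
      constructor <;> omega
    | succ j ih =>
      rw [pow_succ', Equiv.Perm.mul_apply]
      exact ⟨lo _ ih.1, up _ ih.2⟩
  have hcard : (Finset.Ioo (c2 + (R : ℤ)) (c1 - R)).card < (Finset.range (4 * G + 2)).card := by
    rw [Int.card_Ioo, Finset.card_range]
    omega
  obtain ⟨i, hi, j, hj, hne, heq⟩ := Finset.exists_ne_map_eq_of_card_lt_of_maps_to hcard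
    (f := fun j : ℕ => (g ^ j) q) (fun j _ => by
      rw [Finset.mem_coe, Finset.mem_Ioo]
      exact it j)
  have main : ∀ i j : ℕ, i < j → j < 4 * G + 2 → (g ^ i) q = (g ^ j) q →
      (g ^ (4 * G + 1).factorial) q = q := by
    intro i j hij hj heq
    have h3 : (g ^ (j - i)) q = q := by
      have h4 : (g ^ j) q = (g ^ i) ((g ^ (j - i)) q) := by
        rw [← Equiv.Perm.mul_apply, ← pow_add, Nat.add_sub_cancel' hij.le]
      rw [h4] at heq
      exact ((g ^ i).injective heq).symm
    obtain ⟨m, hm⟩ := Nat.dvd_factorial (show 0 < j - i by omega) (show j - i ≤ 4 * G + 1 by omega)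
    rw [hm, pow_mul]
    exact Equiv.Perm.pow_apply_eq_self_of_apply_eq_self h3 m
  rcases lt_or_gt_of_ne hne with h | h
  · exact main i j h (Finset.mem_range.1 hj) heq
  · exact main j i h (Finset.mem_range.1 hi) heq.symm

end Pool.Agent.E8helper91.FS
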